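import Pool.Agent.H80.SH.Targets

/-!
# The final inequality (FRM)
-/

set_option autoImplicit false

namespace Pool.Agent.H54.SH

open Finset Pool.Agent.H80.SH

theorem pf_FRM : T_FRM := by
  intro ε hε hε2 n N S D k hn hNn hN hnP hS hmain
  have hn1 : (1 : ℝ) ≤ n := by exact_mod_cast hn
  have hNn' : (N : ℝ) ≤ n := by exact_mod_cast hNn
  have hnP' : (n : ℝ) ≤ k * D := by exact_mod_cast hnP
  set e : ℕ := Nat.clog 2 S with he
  have hmain' : (N : ℝ) * (N + (e + 1)) ≤ 2 * (e + 1) * (k * D) := by exact_mod_cast hmain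
  set P : ℝ := (k : ℝ) * D with hP
  have he0 : (0 : ℝ) ≤ e := Nat.cast_nonneg e
  have h1 : (N : ℝ) ^ 2 ≤ (e + 1) * (2 * P - N) := by nlinarith
  have hpos : 0 < 2 * P - n := by linarith
  have h2 : 2 * P - N ≤ (1 + ε / 4) * (2 * P - n) := by nlinarith
  have h3 : (N : ℝ) ^ 2 ≤ (e + 1) * ((1 + ε / 4) * (2 * P - n)) :=
    h1.trans (mul_le_mul_of_nonneg_left h2 (by linarith))
  have h4 : ((1 - ε / 4) * n) ^ 2 ≤ (N : ℝ) ^ 2 := by
    apply pow_le_pow_left₀ _ hN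
    apply mul_nonneg <;> linarith
  have h5 : (1 - ε) * (1 + ε / 4) * (n : ℝ) ^ 2 ≤ ((1 - ε / 4) * n) ^ 2 := by
    rw [mul_pow]
    apply mul_le_mul_of_nonneg_right _ (sq_nonneg _)
    nlinarith
  have h6 : (1 + ε / 4) * ((1 - ε) * (n : ℝ) ^ 2) ≤ (1 + ε / 4) * ((e + 1) * (2 * P - n)) := by
    calc (1 + ε / 4) * ((1 - ε) * (n : ℝ) ^ 2) = (1 - ε) * (1 + ε / 4) * (n : ℝ) ^ 2 := by ring
      _ ≤ _ := h5
      _ ≤ _ := h4
      _ ≤ _ := h3
      _ = _ := by ring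
  have h7 : (1 - ε) * (n : ℝ) ^ 2 ≤ (e + 1) * (2 * P - n) := le_of_mul_le_mul_left h6 (by linarith)
  have h8 : (1 - ε) * (n : ℝ) ^ 2 / (2 * P - n) ≤ e + 1 := by
    rw [div_le_iff₀ hpos]; exact h7
  have h9 : (1 - ε) * (n : ℝ) ^ 2 / (2 * k * D - n) - 2 ≤ (e : ℝ) - 1 := by
    have : (2 : ℝ) * k * D = 2 * P := by rw [hP]; ring
    rw [this]; linarith
  refine (Real.rpow_le_rpow_of_exponent_le (by norm_num) h9).trans ?_
  rcases Nat.lt_or_ge 1 S with hS1 | hS1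
  · have hc : 0 < e := by
      rw [he]; exact Nat.clog_pos (by norm_num) hS1
    have hlt : 2 ^ (e - 1) < S := by
      have := Nat.pow_pred_clog_lt_self (b := 2) (by norm_num) hS1
      simpa [he] using this
    have hcast : (e : ℝ) - 1 = ((e - 1 : ℕ) : ℝ) := by
      rw [Nat.cast_sub hc]; simp
    rw [hcast, Real.rpow_natCast]
    exact_mod_cast hlt.le
  · have hS1' : S = 1 := le_antisymm hS1 hS
    have hc : e = 0 := by rw [he, hS1']; simp
    rw [hc, hS1']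
    have : (2 : ℝ) ^ (((0 : ℕ) : ℝ) - 1) ≤ (2 : ℝ) ^ (0 : ℝ) :=
      Real.rpow_le_rpow_of_exponent_le (by norm_num) (by norm_num)
    simpa using this

end Pool.Agent.H54.SH
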